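import Pool.Agent.Helper42.FR.Stmts

/-! Row SR of sheet FR: from the system to the relations. -/

set_option autoImplicit false

namespace Pool.Agent.Helper70.FR

open Matrix Pool.Agent.Helper81.Fmr Pool.Agent.Helper42.FR

universe u

section
variable {F : Type u} [Field F] {b : ℕ}

theorem rk_neg (A : Matrix (Fin b) (Fin b) F) : (-A).rank ≤ A.rank := by
  have h : -A = (-1 : Matrix (Fin b) (Fin b) F) * A := by rw [neg_mul, one_mul]
  rw [h]
  exact Matrix.rank_mul_le_right _ _

theorem ae_refl (X : Matrix (Fin b) (Fin b) F) : AE 0 X X := by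
  unfold AE
  rw [sub_self, Matrix.rank_zero]

theorem ae_mono {c d : ℕ} {X Y : Matrix (Fin b) (Fin b) F} (h : AE c X Y) (hcd : c ≤ d) :
    AE d X Y := le_trans h hcd

theorem ae_symm {c : ℕ} {X Y : Matrix (Fin b) (Fin b) F} (h : AE c X Y) : AE c Y X := by
  unfold AE at *
  have e : Y - X = -(X - Y) := by abel
  rw [e]
  exact (rk_neg _).trans h

theorem ae_trans {c d : ℕ} {X Y Z : Matrix (Fin b) (Fin b) F} (h : AE c X Y) (h' : AE d Y Z) :
    AE (c + d) X Z := by
  unfold AE at *
  have e : X - Z = (X - Y) + (Y - Z) := by abel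
  rw [e]
  exact (rank_add_le' _ _).trans (add_le_add h h')

theorem ae_mul {c d : ℕ} {X X' Y Y' : Matrix (Fin b) (Fin b) F} (h : AE c X X')
    (h' : AE d Y Y') : AE (c + d) (X * Y) (X' * Y') := by
  unfold AE at *
  have e : X * Y - X' * Y' = (X - X') * Y + X' * (Y - Y') := by
    rw [sub_mul, mul_sub]
    abel
  rw [e]
  exact (rank_add_le' _ _).trans (add_le_add ((Matrix.rank_mul_le_left _ _).trans h)
    ((Matrix.rank_mul_le_right _ _).trans h'))

/-- multiply on the left -/
theorem ae_l {d : ℕ} {Y Y' : Matrix (Fin b) (Fin b) F} (X : Matrix (Fin b) (Fin b) F)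
    (h : AE d Y Y') : AE d (X * Y) (X * Y') := by
  have := ae_mul (ae_refl X) h
  rwa [zero_add] at this

/-- multiply on the right -/
theorem ae_r {d : ℕ} {X X' : Matrix (Fin b) (Fin b) F} (Y : Matrix (Fin b) (Fin b) F)
    (h : AE d X X') : AE d (X * Y) (X' * Y) := by
  have := ae_mul h (ae_refl Y)
  rwa [add_zero] at this

theorem ae_one_sub {d : ℕ} {X X' : Matrix (Fin b) (Fin b) F} (h : AE d X X') :
    AE d (1 - X) (1 - X') := by
  unfold AE at *
  have e : (1 - X) - (1 - X') = -(X - X') := by abel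
  rw [e]
  exact (rk_neg _).trans h

/-- conjugation -/
theorem ae_conj {c d : ℕ} {h h' X X' Y w : Matrix (Fin b) (Fin b) F} (hh : AE d (h * h') 1)
    (h1 : AE d (h * X) w) (h2 : AE d (Y * h) w) (hX : AE c X X') :
    AE (c + 3 * d) Y (h * X' * h') := by
  have a1 : AE d Y (Y * (h * h')) := by
    have := ae_l Y (ae_symm hh)
    rwa [mul_one] at this
  have a2 : AE d (Y * (h * h')) (w * h') := by
    rw [← mul_assoc]
    exact ae_r h' h2
  have a3 : AE d (w * h') (h * X * h') := ae_r h' (ae_symm h1)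
  have a4 : AE c (h * X * h') (h * X' * h') := ae_r h' (ae_l h hX)
  exact ae_mono (ae_trans (ae_trans (ae_trans a1 a2) a3) a4) (by omega)

end

theorem st_SR (F : Type u) [Field F] : ST_SR F := by
  refine ⟨100, ?_⟩
  intro b d z hm hd hk
  have P : ∀ x y w : Vr, (x, y, w) ∈ pr → AE d (z x * z y) (z w) := by
    intro x y w hxy
    obtain ⟨m, hm'⟩ := List.mem_iff_get.1 hxy
    have h1 := hm m
    have e1 : (SY F).l m = x := by
      show (pr.get m).1 = x
      rw [hm']
    have e2 : (SY F).r m = y := by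
      show (pr.get m).2.1 = y
      rw [hm']
    have e3 : (SY F).o m = w := by
      show (pr.get m).2.2 = w
      rw [hm']
    rw [e1, e2, e3] at h1
    exact h1
  have hone : z .one = 1 := by
    have := hk .one 1 rfl
    rwa [one_smul] at this
  have hzero : z .zero = 0 := by
    have := hk .zero 0 rfl
    rwa [zero_smul] at this
  have hn : ∀ i : Fin 5, AE d (1 - z (.E i)) (-z (.n i)) := by
    intro i
    have h1 := hd (.E i) (.n i) 1 (by simp) (by simp [SY])
    rw [one_smul] at h1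
    unfold AE at *
    have e : (1 - z (.E i)) - (-z (.n i)) = -((z (.E i) - z (.n i)) - 1) := by abel
    rw [e]
    exact (rk_neg _).trans h1
  have m_s_sp := P (.s) (.s') (.one) (by simp [pr])
  have m_sp_s := P (.s') (.s) (.one) (by simp [pr])
  have m_t_tp := P (.t) (.t') (.one) (by simp [pr])
  have m_tp_t := P (.t') (.t) (.one) (by simp [pr])
  have m_h_hp := P (.h) (.h') (.one) (by simp [pr])
  have m_hp_h := P (.h') (.h) (.one) (by simp [pr])
  have m_e_e := P (.e) (.e) (.e) (by simp [pr])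
  have m_s_e := P (.s) (.e) (.se) (by simp [pr])
  have m_e1_s := P (.e1) (.s) (.se) (by simp [pr])
  have m_e_s := P (.e) (.s) (.es) (by simp [pr])
  have m_s_em := P (.s) (.em) (.es) (by simp [pr])
  have m_t_s := P (.t) (.s) (.ts) (by simp [pr])
  have m_s_k := P (.s) (.k) (.sk) (by simp [pr])
  have m_sk_t := P (.sk) (.t) (.ts) (by simp [pr])
  have m_s_t := P (.s) (.t) (.st) (by simp [pr])
  have m_k_st := P (.k) (.st) (.kst) (by simp [pr])
  have m_st_k := P (.st) (.k) (.kst) (by simp [pr])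
  have m_h_st := P (.h) (.st) (.hst) (by simp [pr])
  have m_st_h := P (.st) (.h) (.hst) (by simp [pr])
  have m_e_st := P (.e) (.st) (.est) (by simp [pr])
  have m_st_e := P (.st) (.e) (.est) (by simp [pr])
  have m_t_e1 := P (.t) (.e1) (.te1) (by simp [pr])
  have m_e1_t := P (.e1) (.t) (.te1) (by simp [pr])
  have m_k_e1 := P (.k) (.e1) (.ke1) (by simp [pr])
  have m_e1_k := P (.e1) (.k) (.ke1) (by simp [pr])
  have m_h_e1 := P (.h) (.e1) (.he1) (by simp [pr])
  have m_e1_h := P (.e1) (.h) (.he1) (by simp [pr])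
  have m_e_e1 := P (.e) (.e1) (.ee1) (by simp [pr])
  have m_e1_e := P (.e1) (.e) (.ee1) (by simp [pr])
  have m_e_em := P (.e) (.em) (.q) (by simp [pr])
  have m_one_e := P (.one) (.e) (.E 0) (by simp [pr])
  have m_h_E0 := P (.h) (.E 0) (.hE 0) (by simp [pr])
  have m_E1_h := P (.E 1) (.h) (.hE 0) (by simp [pr])
  have m_h_E1 := P (.h) (.E 1) (.hE 1) (by simp [pr])
  have m_E2_h := P (.E 2) (.h) (.hE 1) (by simp [pr])
  have m_h_E2 := P (.h) (.E 2) (.hE 2) (by simp [pr])
  have m_E3_h := P (.E 3) (.h) (.hE 2) (by simp [pr])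
  have m_h_q := P (.h) (.q) (.hG 0) (by simp [pr])
  have m_G0_h := P (.G 0) (.h) (.hG 0) (by simp [pr])
  have m_h_G0 := P (.h) (.G 0) (.hG 1) (by simp [pr])
  have m_G1_h := P (.G 1) (.h) (.hG 1) (by simp [pr])
  have m_h_G1 := P (.h) (.G 1) (.hG 2) (by simp [pr])
  have m_G2_h := P (.G 2) (.h) (.hG 2) (by simp [pr])
  have m_h_G2 := P (.h) (.G 2) (.hG 3) (by simp [pr])
  have m_E4_h := P (.E 4) (.h) (.hG 3) (by simp [pr])
  have m_n_0 := P (.n 0) (.n 1) (.p 0) (by simp [pr])
  have m_n_1 := P (.p 0) (.n 2) (.p 1) (by simp [pr])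
  have m_n_2 := P (.p 1) (.n 3) (.p 2) (by simp [pr])
  have m_n_3 := P (.p 2) (.n 4) (.zero) (by simp [pr])
  rw [hone] at m_s_sp m_sp_s m_t_tp m_tp_t m_h_hp m_hp_h m_one_e
  rw [one_mul] at m_one_e
  rw [hzero] at m_n_3
  have horth : ∀ i j : Fin 5, i ≠ j → AE d (z (.E i) * z (.E j)) 0 := by
    intro i j hij
    rw [← hzero]
    apply P
    fin_cases i <;> fin_cases j <;> first | exact absurd rfl hij | simp [pr]
  -- the conjugate of `e`
  have he1 : AE (3 * d) (z .e1) (z .s * z .e * z .s') := by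
    have := ae_conj m_s_sp m_s_e m_e1_s (ae_refl (z .e))
    rwa [zero_add] at this
  have hem : AE (3 * d) (z .em) (z .s' * z .e * z .s) := by
    have a1 : AE d (z .em) (z .s' * z .s * z .em) := by
      have := ae_r (z .em) (ae_symm m_sp_s)
      rwa [one_mul] at this
    have a2 : AE d (z .s' * z .s * z .em) (z .s' * z .es) := by
      rw [mul_assoc]
      exact ae_l _ m_s_em
    have a3 : AE d (z .s' * z .es) (z .s' * z .e * z .s) := by
      rw [mul_assoc]
      exact ae_l _ (ae_symm m_e_s)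
    exact ae_mono (ae_trans (ae_trans a1 a2) a3) (by omega)
  have hq : AE (4 * d) (z .q) (z .e * (z .s' * z .e * z .s)) :=
    ae_mono (ae_trans (ae_symm m_e_em) (ae_l _ hem)) (by omega)
  have hE0 : AE d (z (.E 0)) (z .e) := ae_symm m_one_e
  have hE1 := ae_conj m_h_hp m_h_E0 m_E1_h hE0
  have hE2 := ae_conj m_h_hp m_h_E1 m_E2_h hE1
  have hE3 := ae_conj m_h_hp m_h_E2 m_E3_h hE2
  have hG0 := ae_conj m_h_hp m_h_q m_G0_h hq
  have hG1 := ae_conj m_h_hp m_h_G0 m_G1_h hG0
  have hG2 := ae_conj m_h_hp m_h_G1 m_G2_h hG1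
  have hE4 := ae_conj m_h_hp m_h_G2 m_E4_h hG2
  have hE : ∀ i : Fin 5, AE (16 * d) (z (.E i))
      (EE (z .s) (z .s') (z .h) (z .h') (z .e) i) := by
    intro i
    fin_cases i
    · exact ae_mono hE0 (by omega)
    · exact ae_mono hE1 (by omega)
    · exact ae_mono hE2 (by omega)
    · exact ae_mono hE3 (by omega)
    · exact ae_mono hE4 (by omega)
  -- commutation with the conjugate
  have hcomm : ∀ x w : Matrix (Fin b) (Fin b) F, AE d (x * z .e1) w → AE d (z .e1 * x) w →
      AE (100 * d) (x * (z .s * z .e * z .s')) (z .s * z .e * z .s' * x) := by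
    intro x w h1 h2
    have a1 := ae_l x (ae_symm he1)
    have a2 := ae_r x he1
    exact ae_mono (ae_trans (ae_trans (ae_trans a1 h1) (ae_symm h2)) a2) (by omega)
  have hst : ∀ x w : Matrix (Fin b) (Fin b) F, AE d (x * z .st) w → AE d (z .st * x) w →
      AE (100 * d) (x * (z .s * z .t)) (z .s * z .t * x) := by
    intro x w h1 h2
    have a1 := ae_l x m_s_t
    have a2 := ae_r x (ae_symm m_s_t)
    exact ae_mono (ae_trans (ae_trans (ae_trans a1 h1) (ae_symm h2)) a2) (by omega)
  have hF : ∀ i : Fin 5, AE (17 * d) (1 - EE (z .s) (z .s') (z .h) (z .h') (z .e) i)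
      (-z (.n i)) := by
    intro i
    exact ae_mono (ae_trans (ae_one_sub (ae_symm (hE i))) (hn i)) (by omega)
  exact {
    ss := ae_mono m_s_sp (by omega)
    ss' := ae_mono m_sp_s (by omega)
    tt := ae_mono m_t_tp (by omega)
    tt' := ae_mono m_tp_t (by omega)
    hh := ae_mono m_h_hp (by omega)
    hh' := ae_mono m_hp_h (by omega)
    ts := ae_mono (ae_trans (ae_trans m_t_s (ae_symm m_sk_t)) (ae_r (z .t) (ae_symm m_s_k)))
      (by omega)
    kst := hst _ _ m_k_st m_st_k
    hst := hst _ _ m_h_st m_st_h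
    est := hst _ _ m_e_st m_st_e
    ee := ae_mono m_e_e (by omega)
    te := hcomm _ _ m_t_e1 m_e1_t
    ke := hcomm _ _ m_k_e1 m_e1_k
    he := hcomm _ _ m_h_e1 m_e1_h
    ee1 := hcomm _ _ m_e_e1 m_e1_e
    orth := by
      intro i j hij
      exact ae_mono (ae_trans (ae_mul (ae_symm (hE i)) (ae_symm (hE j))) (horth i j hij))
        (by omega)
    cov := by
      have a1 := ae_mul (ae_mul (ae_mul (ae_mul (hF 0) (hF 1)) (hF 2)) (hF 3)) (hF 4)
      have e : (-z (.n 0)) * (-z (.n 1)) * (-z (.n 2)) * (-z (.n 3)) * (-z (.n 4)) =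
          z (.n 0) * z (.n 1) * z (.n 2) * z (.n 3) * (-z (.n 4)) := by
        simp only [neg_mul, mul_neg, neg_neg]
      rw [e] at a1
      have a2 : AE (3 * d) (z (.n 0) * z (.n 1) * z (.n 2) * z (.n 3)) (z (.p 2)) := by
        have b1 := ae_r (z (.n 3)) (ae_r (z (.n 2)) m_n_0)
        have b2 := ae_r (z (.n 3)) m_n_1
        exact ae_mono (ae_trans (ae_trans b1 b2) m_n_2) (by omega)
      have a3 := ae_r (-z (.n 4)) a2
      have a4 : AE d (z (.p 2) * (-z (.n 4))) 0 := by
        unfold AE at *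
        have e2 : z (.p 2) * (-z (.n 4)) - 0 = -(z (.p 2) * z (.n 4) - 0) := by
          rw [mul_neg, sub_zero, sub_zero]
        rw [e2]
        exact (rk_neg _).trans m_n_3
      exact ae_mono (ae_trans (ae_trans a1 a3) a4) (by omega) }

end Pool.Agent.Helper70.FR
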